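import Pool.Agent.Helper11.SP.D2.C01
import Pool.Agent.Helper11.SP.D2.C02
import Pool.Agent.Helper11.SP.D2.C03
import Pool.Agent.Helper11.SP.D2.C04
import Pool.Agent.Helper11.SP.D2.C05
import Pool.Agent.Helper11.SP.D2.C06
import Pool.Agent.Helper11.SP.D2.C07
import Pool.Agent.Helper11.SP.D2.C08
import Pool.Agent.Helper11.SP.D2.C09
import Pool.Agent.Helper11.SP.D2.C10
import Pool.Agent.Helper11.SP.D2.C11
import Pool.Agent.Helper11.SP.D2.C12
import Pool.Agent.Helper11.SP.List2
import Pool.Agent.Helper11.SP.OmVol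
import Pool.Agent.Helper11.SP.Gen

/-! Assembly of the certificate for `g = 2`. -/

open MeasureTheory Filter

namespace Pool.Agent.Helper11.SP.D2

/-- All cells. -/
def all : List C2 := c1 ++ (c2 ++ (c3 ++ (c4 ++ (c5 ++ (c6 ++ (c7 ++ (c8 ++ (c9 ++ (c10 ++ (c11 ++ (c12)))))))))))

lemma chk_all : chk2 e0 all = some e12 := by
  unfold all
  rw [chk2_append, t1, Option.bind_some]
  rw [chk2_append, t2, Option.bind_some]
  rw [chk2_append, t3, Option.bind_some]
  rw [chk2_append, t4, Option.bind_some]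
  rw [chk2_append, t5, Option.bind_some]
  rw [chk2_append, t6, Option.bind_some]
  rw [chk2_append, t7, Option.bind_some]
  rw [chk2_append, t8, Option.bind_some]
  rw [chk2_append, t9, Option.bind_some]
  rw [chk2_append, t10, Option.bind_some]
  rw [chk2_append, t11, Option.bind_some]
  exact t12

lemma wsum_all : wsum2 all = 20908849612 := by
  unfold all
  rw [wsum2_append, wsum2_append, wsum2_append, wsum2_append, wsum2_append, wsum2_append, wsum2_append, wsum2_append, wsum2_append, wsum2_append, wsum2_append]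
  rw [w1, w2, w3, w4, w5, w6, w7, w8, w9, w10, w11, w12]

theorem prop : ∀ᶠ X : ℝ in atTop,
    (98 / 100 : ℝ) * ((Helper3.salemSet 6 X).ncard : ℝ) ≤ ((parrySet 2 X).ncard : ℝ) := by
  obtain ⟨h1, h2, _, h4⟩ := list2_sound e0 e12 all chk_all
  refine prop_open (g := 2) (by norm_num) (reg2 all) h1 h2 (98 / 100) (by norm_num) ?_
  have hv : (volume (OmBar 2)).toReal ≤ 32 / 3 := ENNReal.toReal_le_of_le_ofReal (by norm_num) vol2
  have hU : volume (reg2 all) < ⊤ := (measure_mono (h2.trans (Reg_subset 2))).trans_lt (OmBar_compact 2).measure_lt_top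
  rw [wsum_all] at h4
  have hw := (ENNReal.ofReal_le_iff_le_toReal hU.ne).1 h4
  push_cast at hw
  have hn : (98 / 100 : ℝ) * (32 / 3) < 20908849612 / (2 * 10 ^ 9) := by norm_num
  nlinarith

end Pool.Agent.Helper11.SP.D2
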